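import Pool.Agent.Lib.MP_d439b2_co.FT.F2

/-!
# MP_d439b2_co, FT: readable form of `(f2)` (helper32)
-/

set_option autoImplicit false

namespace Pool.Agent.MPd439b2.FT

open Pool.Agent.MPd439b2

/-- the mask with the bits of a list -/
def mk (l : List ℕ) : ℕ := l.foldr (fun b s => (1 <<< b) ||| s) 0

theorem testBit_mk (l : List ℕ) (b : ℕ) : (mk l).testBit b = true ↔ b ∈ l := by
  induction l with
  | nil => simp [mk]
  | cons a l ih =>
    have h1 : mk (a :: l) = (1 <<< a) ||| mk l := rfl
    rw [h1, Nat.testBit_or, Bool.or_eq_true, ih, List.mem_cons, Nat.shiftLeft_eq, one_mul,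
      Nat.testBit_two_pow, decide_eq_true_eq]
    constructor
    · rintro (h | h)
      · exact Or.inl h.symm
      · exact Or.inr h
    · rintro (h | h)
      · exact Or.inl h.symm
      · exact Or.inr h

theorem Mt.list {F : ℕ → Bool} {ps ns : List ℕ} {P N : ℕ} (hp : ∀ b ∈ ps, F b = true)
    (hn : ∀ b ∈ ns, F b = false) (h1 : mk ps = P) (h2 : mk ns = N) : Mt P N F := by
  subst h1
  subst h2
  exact ⟨fun b hb => hp b ((testBit_mk ps b).1 hb), fun b hb => hn b ((testBit_mk ns b).1 hb)⟩

theorem Hy.nil (F : ℕ → Bool) : Hy 0 0 F :=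
  ⟨fun i j h => by simp at h, fun i j h => by simp at h⟩

/-- **(f2)**: rails `0, 1, 2, 3` = `u, v, u', a`; `u - v` and `v - u'` are co-matchings between rails of different types;
`a` is half to `u`.  Then `a` is half to `u'`, in the same direction. -/
theorem f2 {V : Type} {G : SimpleGraph V} (hH : ¬ IMS (KA 3 3 ![{0}, {1}, {0, 2}]) G Set.univ)
    (hJ : ¬ IMS (F9.JS ![0, 1, 1] 2) G Set.univ) {x : ℕ → ℕ → V} {F : ℕ → Bool}
    (h : HR G 4 16 x F) (t1 : F 17 = !F 0) (t2 : F 34 = F 0)
    (a1 : F 1 = true) (a2 : F 16 = true) (a3 : F 257 = false)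
    (b1 : F 18 = true) (b2 : F 33 = true) (b3 : F 274 = false) (hh : F 48 = !F 3) :
    F 35 = F 3 ∧ F 50 = F 48 := by
  have hy := Hy.nil F
  rcases h0 : F 0 with _ | _ <;> rcases h3 : F 3 with _ | _ <;>
    rw [h0] at t1 t2 <;> rw [h3] at hh <;> simp only [Bool.not_true, Bool.not_false] at t1 hh <;>
    rw [hh] <;> refine ⟨?_, ?_⟩ <;> by_contra hc
  · rw [Bool.not_eq_false] at hc
    exact F2.e000 hH hJ h hy (Mt.list (ps := [17, 1, 16, 18, 33, 48, 35])
      (ns := [0, 34, 257, 274, 3]) (by simp [*]) (by simp [*]) (by decide +kernel)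
      (by decide +kernel))
  · rw [Bool.not_eq_true] at hc
    exact F2.e001 hH hJ h hy (Mt.list (ps := [17, 1, 16, 18, 33, 48])
      (ns := [0, 34, 257, 274, 3, 50]) (by simp [*]) (by simp [*]) (by decide +kernel)
      (by decide +kernel))
  · rw [Bool.not_eq_true] at hc
    exact F2.e010 hH hJ h hy (Mt.list (ps := [17, 1, 16, 18, 33, 3])
      (ns := [0, 34, 257, 274, 48, 35]) (by simp [*]) (by simp [*]) (by decide +kernel)
      (by decide +kernel))
  · rw [Bool.not_eq_false] at hc
    exact F2.e011 hH hJ h hy (Mt.list (ps := [17, 1, 16, 18, 33, 3, 50])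
      (ns := [0, 34, 257, 274, 48]) (by simp [*]) (by simp [*]) (by decide +kernel)
      (by decide +kernel))
  · rw [Bool.not_eq_false] at hc
    exact F2.e100 hH hJ h hy (Mt.list (ps := [0, 34, 1, 16, 18, 33, 48, 35])
      (ns := [17, 257, 274, 3]) (by simp [*]) (by simp [*]) (by decide +kernel)
      (by decide +kernel))
  · rw [Bool.not_eq_true] at hc
    exact F2.e101 hH hJ h hy (Mt.list (ps := [0, 34, 1, 16, 18, 33, 48])
      (ns := [17, 257, 274, 3, 50]) (by simp [*]) (by simp [*]) (by decide +kernel)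
      (by decide +kernel))
  · rw [Bool.not_eq_true] at hc
    exact F2.e110 hH hJ h hy (Mt.list (ps := [0, 34, 1, 16, 18, 33, 3])
      (ns := [17, 257, 274, 48, 35]) (by simp [*]) (by simp [*]) (by decide +kernel)
      (by decide +kernel))
  · rw [Bool.not_eq_false] at hc
    exact F2.e111 hH hJ h hy (Mt.list (ps := [0, 34, 1, 16, 18, 33, 3, 50])
      (ns := [17, 257, 274, 48]) (by simp [*]) (by simp [*]) (by decide +kernel)
      (by decide +kernel))

end Pool.Agent.MPd439b2.FT
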