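import Pool.Agent.Lib.MP_d439b2_co.FT.Eng

/-!
# MP_d439b2_co, FT: the two forbidden graphs `K3:0,1,02` and `J_2`, libraries of nogoods (helper32)
-/

set_option autoImplicit false

namespace Pool.Agent.MPd439b2.FT

open Pool.Agent.MPd439b2
open Pool.Agent.MPd439b2.BU
open Pool.Agent.MPd439b2.HC

variable {V : Type}

/-- the pattern of `J_2 = co(P_3 + 2 P_2)` -/
def qJ2 : ℕ → ℕ → Bool := rc [0, 0, 1, 7, 7, 31, 31]

/-- the number of a vertex of `J_2` -/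
def iJ2 : Option A0.aPBAux.Lf ⊕ (Fin 2 × Bool) → ℕ
  | Sum.inl none => 1
  | Sum.inl (some y) => if y = A0.aPBAux.l1 then 0 else 2
  | Sum.inr (q, false) => 2 * q.val + 3
  | Sum.inr (q, true) => 2 * q.val + 4

theorem iJ2_n : iJ2 (Sum.inl none) = 1 := rfl

theorem iJ2_l1 : iJ2 (Sum.inl (some A0.aPBAux.l1)) = 0 := by
  simp [iJ2]

theorem iJ2_l2 : iJ2 (Sum.inl (some A0.aPBAux.l2)) = 2 := by
  simp [iJ2, Ne.symm A0.aPBAux.l12]

theorem spfJ2 {G : SimpleGraph V} (h : ¬ IMS (F9.JS ![0, 1, 1] 2) G Set.univ) :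
    SPF G Set.univ 7 qJ2 := by
  intro S hS
  apply h
  refine R3.ims_of_sp hS iJ2 ?_ ?_
  · refine A0.aPBAux.cas _ ?_ ?_ ?_ (fun q => ?_) (fun q => ?_)
    · rw [iJ2_n]; omega
    · rw [iJ2_l1]; omega
    · rw [iJ2_l2]; omega
    · have := q.2; simp only [iJ2]; omega
    · have := q.2; simp only [iJ2]; omega
  · have a1 : ¬ (F9.Spid ![0, 1, 1]).Adj (some A0.aPBAux.l1) (some A0.aPBAux.l2) := by
      intro h
      exact absurd h.1 (by decide)
    have a2 : ¬ (F9.Spid ![0, 1, 1]).Adj (some A0.aPBAux.l2) (some A0.aPBAux.l1) := by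
      intro h
      exact absurd h.1 (by decide)
    have a3 : (F9.Spid ![0, 1, 1]).Adj none (some A0.aPBAux.l1) := rfl
    have a4 : (F9.Spid ![0, 1, 1]).Adj none (some A0.aPBAux.l2) := rfl
    have a5 : (F9.Spid ![0, 1, 1]).Adj (some A0.aPBAux.l1) none := rfl
    have a6 : (F9.Spid ![0, 1, 1]).Adj (some A0.aPBAux.l2) none := rfl
    refine A0.aPBAux.cas _ (A0.aPBAux.cas _ ?_ ?_ ?_ (fun q => ?_) fun q => ?_)
      (A0.aPBAux.cas _ ?_ ?_ ?_ (fun q => ?_) fun q => ?_)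
      (A0.aPBAux.cas _ ?_ ?_ ?_ (fun q => ?_) fun q => ?_)
      (fun r => A0.aPBAux.cas _ ?_ ?_ ?_ (fun q => ?_) fun q => ?_)
      (fun r => A0.aPBAux.cas _ ?_ ?_ ?_ (fun q => ?_) fun q => ?_) <;>
    intro hne <;>
    first
    | exact absurd rfl hne
    | (simp only [iJ2_n, iJ2_l1, iJ2_l2, F9.JS, a1, a2, a3, a4, a5, a6, ne_eq, not_false_eq_true,
        and_true, not_true_eq_false, and_false]
       decide)
    | (fin_cases q <;> simp only [iJ2_n, iJ2_l1, iJ2_l2, F9.JS] <;> decide)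
    | (fin_cases r <;> simp only [iJ2_n, iJ2_l1, iJ2_l2, F9.JS] <;> decide)
    | (fin_cases q <;> fin_cases r <;>
        first
        | exact absurd rfl hne
        | (simp only [iJ2, F9.JS]; decide))

/-! ### libraries -/

/-- a certificate: `(b, L, p, n, C)`; `b = true` for `K3:0,1,02`, `b = false` for `J_2` -/
abbrev Cert := Bool × ℕ × ℕ × ℕ × List (List ℕ)

/-- the check of one certificate -/
def ckCert (c : Cert) : Bool :=
  Nat.blt 0 c.2.1 && bif c.1 then chkC c.2.1 c.2.2.1 c.2.2.2.1 6 R3.q2 c.2.2.2.2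
    else chkC c.2.1 c.2.2.1 c.2.2.2.1 7 qJ2 c.2.2.2.2

/-- the nogood of a certificate -/
def ngd (c : Cert) : ℕ × ℕ × ℕ := (c.2.2.1, c.2.2.2.1, c.2.1)

theorem lib_ok {G : SimpleGraph V} (hH : ¬ IMS (KA 3 3 ![{0}, {1}, {0, 2}]) G Set.univ)
    (hJ : ¬ IMS (F9.JS ![0, 1, 1] 2) G Set.univ) {cs : List Cert} (hc : cs.all ckCert = true) :
    ∀ c ∈ cs.map ngd, NG G c.1 c.2.1 c.2.2 := by
  intro c hcm
  obtain ⟨d, hd, rfl⟩ := List.mem_map.1 hcm
  have h := (List.all_eq_true.1 hc) d hd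
  simp only [ckCert, Bool.and_eq_true] at h
  obtain ⟨h1, h2⟩ := h
  rw [Nat.blt_eq] at h1
  rcases hb : d.1 with _ | _
  · rw [hb, cond_false] at h2
    exact ng_of (spfJ2 hJ) h1 h2
  · rw [hb, cond_true] at h2
    exact ng_of (R3.spf2 hH) h1 h2

/-- **the main theorem of the engine** -/
theorem refute {G : SimpleGraph V} (hH : ¬ IMS (KA 3 3 ![{0}, {1}, {0, 2}]) G Set.univ)
    (hJ : ¬ IMS (F9.JS ![0, 1, 1] 2) G Set.univ) {L A B P N : ℕ} {x : ℕ → ℕ → V} {F : ℕ → Bool}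
    (h : HR G L 16 x F) (hL : L ≤ 16) (hy : Hy A B F) (hM : Mt P N F) (cs : List Cert)
    (hc : cs.all ckCert = true) (t : Tr) (ht : chkT (cs.map ngd) L A B t P N = true) : False :=
  tr_false h (lib_ok hH hJ hc) hL hy t P N hM ht

end Pool.Agent.MPd439b2.FT
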