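import Pool.Agent.Lib.MP_d439b2_co.R3.Eng

/-!
# MP_d439b2_co, FT: finite tables for homogeneous rails with known diagonals (helper32)

The adjacencies of homogeneous rails are the bits of a function `F : ℕ → Bool`.  Partial knowledge is a pair of masks
`P` (the bits which are `true`) and `N` (the bits which are `false`).  A nogood is a partial table that contains a
forbidden pattern (`chkC`); a tree of case splits whose leaves are nogoods refutes the rails (`tr_false`).
-/

set_option autoImplicit false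

namespace Pool.Agent.MPd439b2.FT

open Pool.Agent.MPd439b2
open Pool.Agent.MPd439b2.BU
open Pool.Agent.MPd439b2.HC

variable {V : Type}

/-! ### rails -/

/-- **Homogeneous rails** `x 0, .., x (L - 1)` (`L ≤ 16`) with `M` indices: for `k < l` the adjacency of `x i k` and
`x j l` is the bit `16 i + j` of `F`; for `i < j` the adjacency of `x i k` and `x j k` is the bit `256 + 16 i + j`.  All
vertices are different. -/
structure HR (G : SimpleGraph V) (L M : ℕ) (x : ℕ → ℕ → V) (F : ℕ → Bool) : Prop where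
  dis : ∀ i < L, ∀ j < L, ∀ k < M, ∀ l < M, (i ≠ j ∨ k ≠ l) → x i k ≠ x j l
  rel : ∀ i < L, ∀ j < L, ∀ k l, k < l → l < M → (G.Adj (x i k) (x j l) ↔ F (16 * i + j) = true)
  dg : ∀ i < L, ∀ j < L, i < j → ∀ k < M, (G.Adj (x i k) (x j k) ↔ F (256 + 16 * i + j) = true)

/-- the rails `s, .., s + L' - 1` -/
theorem HR.shift {G : SimpleGraph V} {L M : ℕ} {x : ℕ → ℕ → V} {F : ℕ → Bool} (h : HR G L M x F)
    {L' s : ℕ} (hs : s + L' ≤ L) :
    HR G L' M (fun i => x (i + s)) (fun b => F (b + 17 * s)) :=
  ⟨fun i hi j hj k hk l hl hkl => h.dis _ (by omega) _ (by omega) k hk l hl (by omega),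
    fun i hi j hj k l hkl hl => by
      rw [h.rel (i + s) (by omega) (j + s) (by omega) k l hkl hl,
        show 16 * i + j + 17 * s = 16 * (i + s) + (j + s) from by ring],
    fun i hi j hj hij k hk => by
      rw [h.dg (i + s) (by omega) (j + s) (by omega) (by omega) k hk,
        show 256 + 16 * i + j + 17 * s = 256 + 16 * (i + s) + (j + s) from by ring]⟩

theorem HR.mono {G : SimpleGraph V} {L M : ℕ} {x : ℕ → ℕ → V} {F : ℕ → Bool} (h : HR G L M x F)
    {L' M' : ℕ} (hL : L' ≤ L) (hM : M' ≤ M) : HR G L' M' x F :=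
  ⟨fun i hi j hj k hk l hl hkl => h.dis _ (by omega) _ (by omega) k (by omega) l (by omega) hkl,
    fun i hi j hj k l hkl hl => h.rel i (by omega) j (by omega) k l hkl (by omega),
    fun i hi j hj hij k hk => h.dg i (by omega) j (by omega) hij k (by omega)⟩

/-- the bit of the pair of the vertices `x (p % L) (p / L)` and `x (q % L) (q / L)` -/
def ab (L p q : ℕ) : ℕ :=
  bif Nat.blt (p / L) (q / L) then 16 * (p % L) + q % L
  else bif Nat.blt (q / L) (p / L) then 16 * (q % L) + p % L
  else 256 + 16 * (min (p % L) (q % L)) + max (p % L) (q % L)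

theorem sp_of_hr {G : SimpleGraph V} {L M : ℕ} {x : ℕ → ℕ → V} {F : ℕ → Bool}
    (h : HR G L M x F) (hL : 0 < L) :
    SP G Set.univ (L * M) (fun p => {x (p % L) (p / L)}) (fun p q => F (ab L p q)) := by
  have hm : ∀ p, p % L < L := fun p => Nat.mod_lt p hL
  have hd : ∀ p < L * M, p / L < M := fun p hp => Nat.div_lt_of_lt_mul hp
  have hne : ∀ p q, q < p → (p % L ≠ q % L ∨ p / L ≠ q / L) := by
    intro p q hqp
    by_contra hcon
    push Not at hcon
    have h5 := Nat.div_add_mod p L
    have h6 := Nat.div_add_mod q L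
    rw [hcon.1, hcon.2, h6] at h5
    omega
  refine ⟨fun _ _ => Set.subset_univ _, fun _ _ => Conn.singleton G _, fun p hp q hq => ?_,
    fun p hp q hq => ?_⟩
  · exact Set.disjoint_singleton.2 (h.dis _ (hm p) _ (hm q) _ (hd p hp) _ (hd q (by omega))
      (hne p q hq))
  · have hdp := hd p hp
    have hdq := hd q (by omega)
    rw [tch_single]
    show G.Adj (x (p % L) (p / L)) (x (q % L) (q / L)) ↔ F (ab L p q) = true
    unfold ab
    rcases lt_trichotomy (p / L) (q / L) with h1 | h1 | h1
    · have h2 : Nat.blt (p / L) (q / L) = true := by rw [Nat.blt_eq]; exact h1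
      rw [h2, cond_true]
      exact h.rel _ (hm p) _ (hm q) _ _ h1 hdq
    · have h2 : Nat.blt (p / L) (q / L) = false := by
        rw [Bool.eq_false_iff]
        intro h3
        rw [Nat.blt_eq] at h3
        omega
      have h3 : Nat.blt (q / L) (p / L) = false := by
        rw [Bool.eq_false_iff]
        intro h3
        rw [Nat.blt_eq] at h3
        omega
      rw [h2, h3, cond_false, cond_false]
      have h4 : p % L ≠ q % L := by
        rcases hne p q hq with h4 | h4
        · exact h4
        · exact absurd h1 h4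
      rw [h1]
      rcases lt_or_gt_of_ne h4 with h5 | h5
      · rw [min_eq_left h5.le, max_eq_right h5.le]
        exact h.dg _ (hm p) _ (hm q) h5 _ hdq
      · rw [min_eq_right h5.le, max_eq_left h5.le, SimpleGraph.adj_comm]
        exact h.dg _ (hm q) _ (hm p) h5 _ hdq
    · have h2 : Nat.blt (p / L) (q / L) = false := by
        rw [Bool.eq_false_iff]
        intro h3
        rw [Nat.blt_eq] at h3
        omega
      have h3 : Nat.blt (q / L) (p / L) = true := by rw [Nat.blt_eq]; exact h1
      rw [h2, h3, cond_false, cond_true, SimpleGraph.adj_comm]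
      exact h.rel _ (hm q) _ (hm p) _ _ h1 hdp

/-! ### partial knowledge -/

/-- the bits of `P` are `true` and the bits of `N` are `false` for `F` -/
def Mt (P N : ℕ) (F : ℕ → Bool) : Prop :=
  (∀ b, P.testBit b = true → F b = true) ∧ ∀ b, N.testBit b = true → F b = false

theorem Mt.or {P N P' N' : ℕ} {F : ℕ → Bool} (h : Mt P N F) (h' : Mt P' N' F) :
    Mt (P ||| P') (N ||| N') F := by
  refine ⟨fun b hb => ?_, fun b hb => ?_⟩
  · rw [Nat.testBit_or, Bool.or_eq_true] at hb
    exact hb.elim (h.1 b) (h'.1 b)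
  · rw [Nat.testBit_or, Bool.or_eq_true] at hb
    exact hb.elim (h.2 b) (h'.2 b)

theorem Mt.zero (F : ℕ → Bool) : Mt 0 0 F := by
  refine ⟨fun b hb => ?_, fun b hb => ?_⟩ <;> simp at hb

theorem Mt.sub {P N p n : ℕ} {F : ℕ → Bool} (h : Mt P N F) (hp : P &&& p = p) (hn : N &&& n = n) :
    Mt p n F := by
  refine ⟨fun b hb => h.1 b ?_, fun b hb => h.2 b ?_⟩
  · rw [← hp, Nat.testBit_and, Bool.and_eq_true] at hb
    exact hb.1
  · rw [← hn, Nat.testBit_and, Bool.and_eq_true] at hb
    exact hb.1

theorem Mt.shift {p n s : ℕ} {F : ℕ → Bool} (h : Mt (p <<< s) (n <<< s) F) :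
    Mt p n (fun b => F (b + s)) := by
  refine ⟨fun b hb => h.1 _ ?_, fun b hb => h.2 _ ?_⟩
  · rw [Nat.testBit_shiftLeft]
    simp [hb]
  · rw [Nat.testBit_shiftLeft]
    simp [hb]

theorem Mt.one {b : ℕ} {F : ℕ → Bool} (h : F b = true) : Mt (1 <<< b) 0 F := by
  refine ⟨fun c hc => ?_, fun c hc => ?_⟩
  · rw [Nat.shiftLeft_eq, one_mul, Nat.testBit_two_pow] at hc
    rw [← (of_decide_eq_true hc : b = c)]
    exact h
  · simp at hc

theorem Mt.nil {b : ℕ} {F : ℕ → Bool} (h : F b = false) : Mt 0 (1 <<< b) F := by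
  refine ⟨fun c hc => ?_, fun c hc => ?_⟩
  · simp at hc
  · rw [Nat.shiftLeft_eq, one_mul, Nat.testBit_two_pow] at hc
    rw [← (of_decide_eq_true hc : b = c)]
    exact h

/-! ### nogoods -/

/-- no homogeneous rails (`L` rails, 16 indices) match the partial table -/
def NG (G : SimpleGraph V) (p n L : ℕ) : Prop := ∀ x F, HR G L 16 x F → Mt p n F → False

/-- the certificate of a nogood: the branch sets of a pattern, valid for the partial table -/
def chkC (L p n m : ℕ) (q : ℕ → ℕ → Bool) (C : List (List ℕ)) : Bool :=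
  Nat.beq C.length m && Eng.goodL (L * 16) C.flatten &&
    C.all (Eng.connL fun a b => p.testBit (ab L a b)) &&
    (List.range m).all fun i => (List.range i).all fun j =>
      bif q i j then Eng.tchL (fun a b => p.testBit (ab L a b)) (C.getD i []) (C.getD j [])
      else !(Eng.tchL (fun a b => !(n.testBit (ab L a b))) (C.getD i []) (C.getD j []))

theorem rs_mono {r r' : ℕ → ℕ → Bool} (h : ∀ a b, r a b = true → r' a b = true) (a b : ℕ)
    (hab : Eng.rs r a b = true) : Eng.rs r' a b = true := by
  unfold Eng.rs at *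
  rcases h1 : Nat.blt b a with _ | _
  · rw [h1, cond_false] at hab
    rw [cond_false]
    rcases h2 : Nat.blt a b with _ | _
    · rw [h2, cond_false] at hab
      exact absurd hab (by decide)
    · rw [h2, cond_true] at hab
      rw [cond_true]
      exact h _ _ hab
  · rw [h1, cond_true] at hab
    rw [cond_true]
    exact h _ _ hab

theorem tchL_mono {r r' : ℕ → ℕ → Bool} (h : ∀ a b, r a b = true → r' a b = true) {l m : List ℕ}
    (hl : Eng.tchL r l m = true) : Eng.tchL r' l m = true := by
  rw [Eng.tchL_iff] at *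
  obtain ⟨i, hi, j, hj, hij⟩ := hl
  exact ⟨i, hi, j, hj, rs_mono h i j hij⟩

theorem connL_mono {r r' : ℕ → ℕ → Bool} (h : ∀ a b, r a b = true → r' a b = true) {l : List ℕ}
    (hl : Eng.connL r l = true) : Eng.connL r' l = true := by
  induction l with
  | nil => exact hl
  | cons a l ih =>
    simp only [Eng.connL, Bool.or_eq_true, Bool.and_eq_true, List.any_eq_true] at *
    rcases hl with hl | ⟨⟨j, hj, hr⟩, hl⟩
    · exact Or.inl hl
    · exact Or.inr ⟨⟨j, hj, rs_mono h _ _ hr⟩, ih hl⟩

theorem ng_of {G : SimpleGraph V} {L p n m : ℕ} {q : ℕ → ℕ → Bool} {C : List (List ℕ)}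
    (hq : SPF G Set.univ m q) (hL : 0 < L) (hc : chkC L p n m q C = true) : NG G p n L := by
  intro x F hx hF
  have hS := sp_of_hr hx hL
  refine hq _ (chkG_sp (L := C) hS ?_)
  simp only [chkC, Bool.and_eq_true, List.all_eq_true, List.mem_range] at hc
  obtain ⟨⟨⟨h1, h2⟩, h3⟩, h4⟩ := hc
  have hp : ∀ a b, p.testBit (ab L a b) = true → F (ab L a b) = true := fun a b => hF.1 _
  have hn : ∀ a b, F (ab L a b) = true → (!(n.testBit (ab L a b))) = true := by
    intro a b hab
    rcases h5 : n.testBit (ab L a b) with _ | _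
    · rfl
    · rw [hF.2 _ h5] at hab
      exact absurd hab (by decide)
  simp only [chkG, Bool.and_eq_true, List.all_eq_true, List.mem_range, beq_iff_eq]
  refine ⟨⟨⟨h1, h2⟩, fun l hl => connL_mono hp (h3 l hl)⟩, fun i hi j hj => ?_⟩
  have h5 := h4 i hi j hj
  rcases hq' : q i j with _ | _
  · rw [hq', cond_false, Bool.not_eq_true'] at h5
    rcases h6 : Eng.tchL (fun a b => F (ab L a b)) (C.getD i []) (C.getD j []) with _ | _
    · rfl
    · rw [tchL_mono hn h6] at h5
      exact absurd h5 (by decide)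
  · rw [hq', cond_true] at h5
    exact tchL_mono hp h5

/-! ### trees -/

/-- **Hypotheses on `F`.**  `cn`: for `i < j` in the mask `A` the rails `i` and `j` are complete or anticomplete; `st`:
for `i < j` in the mask `B` the rails `i` and `j` form a half graph (in one of the two directions), or they are a
co-matching between a clique and a stable set -/
structure Hy (A B : ℕ) (F : ℕ → Bool) : Prop where
  cn : ∀ i j, A.testBit (16 * i + j) = true →
    F (16 * i + j) = F (16 * j + i) ∧ F (256 + 16 * i + j) = F (16 * i + j)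
  st : ∀ i j, B.testBit (16 * i + j) = true →
    (F (16 * i + j) = true ∧ F (16 * j + i) = false) ∨ (F (16 * i + j) = false ∧ F (16 * j + i) = true) ∨
    (F (16 * i + j) = true ∧ F (16 * j + i) = true ∧ F (256 + 16 * i + j) = false ∧
      F (17 * i) ≠ F (17 * j))

/-- trees of case splits: `lf g s`: the nogood `g`, shifted by `s`; `xx i j`: co-matching between rails of the same
type; `cf`: contradictory knowledge; `bt b t u`: split on the bit `b` (`false`, `true`); `cn i j t u`: the constant
pair `i, j` (`false`, `true`); `st i j t u w`: the step `i, j` (`<`, `>`, `=`) -/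
inductive Tr : Type
  | lf (g s : ℕ) : Tr
  | xx (i j : ℕ) : Tr
  | cf : Tr
  | bt (b : ℕ) (t u : Tr) : Tr
  | cn (i j : ℕ) (t u : Tr) : Tr
  | st (i j : ℕ) (t u w : Tr) : Tr

/-- the checker: `B0` = the list of the nogoods `(p, n, L')` -/
def chkT (lib : List (ℕ × ℕ × ℕ)) (L A B : ℕ) : Tr → ℕ → ℕ → Bool
  | Tr.lf g s, P, N =>
    Nat.ble (s + (lib.getD g (0, 0, 17)).2.2) L &&
      Nat.beq (P &&& ((lib.getD g (0, 0, 17)).1 <<< (17 * s))) ((lib.getD g (0, 0, 17)).1 <<< (17 * s)) &&
      Nat.beq (N &&& ((lib.getD g (0, 0, 17)).2.1 <<< (17 * s))) ((lib.getD g (0, 0, 17)).2.1 <<< (17 * s))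
  | Tr.xx i j, P, N => B.testBit (16 * i + j) && P.testBit (16 * i + j) && P.testBit (16 * j + i) &&
      ((P.testBit (17 * i) && P.testBit (17 * j)) || (N.testBit (17 * i) && N.testBit (17 * j)))
  | Tr.cf, P, N => !(Nat.beq (P &&& N) 0)
  | Tr.bt b t u, P, N => chkT lib L A B t P (N ||| (1 <<< b)) && chkT lib L A B u (P ||| (1 <<< b)) N
  | Tr.cn i j t u, P, N => A.testBit (16 * i + j) &&
      chkT lib L A B t P (N ||| ((1 <<< (16 * i + j)) ||| (1 <<< (16 * j + i)) ||| (1 <<< (256 + 16 * i + j)))) &&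
      chkT lib L A B u (P ||| ((1 <<< (16 * i + j)) ||| (1 <<< (16 * j + i)) ||| (1 <<< (256 + 16 * i + j)))) N
  | Tr.st i j t u w, P, N => B.testBit (16 * i + j) &&
      chkT lib L A B t (P ||| (1 <<< (16 * i + j))) (N ||| (1 <<< (16 * j + i))) &&
      chkT lib L A B u (P ||| (1 <<< (16 * j + i))) (N ||| (1 <<< (16 * i + j))) &&
      chkT lib L A B w (P ||| ((1 <<< (16 * i + j)) ||| (1 <<< (16 * j + i))))
        (N ||| (1 <<< (256 + 16 * i + j)))

theorem cf_false {P N : ℕ} {F : ℕ → Bool} (h : Mt P N F) : P &&& N = 0 := by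
  refine Nat.eq_of_testBit_eq fun b => ?_
  rw [Nat.testBit_and, Nat.zero_testBit, Bool.and_eq_false_iff]
  rcases h1 : P.testBit b with _ | _
  · exact Or.inl rfl
  · right
    rcases h2 : N.testBit b with _ | _
    · rfl
    · have h3 := h.1 b h1
      rw [h.2 b h2] at h3
      exact absurd h3 (by decide)

/-- **a tree refutes the rails** -/
theorem tr_false {G : SimpleGraph V} {L A B : ℕ} {x : ℕ → ℕ → V} {F : ℕ → Bool} (h : HR G L 16 x F)
    {lib : List (ℕ × ℕ × ℕ)} (hlib : ∀ c ∈ lib, NG G c.1 c.2.1 c.2.2) (hL : L ≤ 16) (hy : Hy A B F) :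
    ∀ (t : Tr) (P N : ℕ), Mt P N F → chkT lib L A B t P N = true → False := by
  intro t
  induction t with
  | lf g s =>
    intro P N hM hc
    simp only [chkT, Bool.and_eq_true] at hc
    obtain ⟨⟨h1, h2⟩, h3⟩ := hc
    have h1' := Nat.le_of_ble_eq_true h1
    have hg : g < lib.length := by
      by_contra hcon
      rw [List.getD_eq_default _ _ (not_lt.1 hcon)] at h1'
      dsimp only at h1'
      omega
    have hmem : lib.getD g (0, 0, 17) ∈ lib := by
      rw [List.getD_eq_getElem _ _ hg]
      exact List.getElem_mem hg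
    refine hlib _ hmem _ _ (h.shift h1') (Mt.shift (s := 17 * s) (hM.sub (Nat.eq_of_beq_eq_true h2)
      (Nat.eq_of_beq_eq_true h3)))
  | xx i j =>
    intro P N hM hc
    simp only [chkT, Bool.and_eq_true, Bool.or_eq_true] at hc
    obtain ⟨⟨⟨h1, h2⟩, h3⟩, h4⟩ := hc
    have h5 := hM.1 _ h2
    have h6 := hM.1 _ h3
    rcases hy.st i j h1 with h7 | h7 | h7
    · rw [h7.2] at h6
      exact absurd h6 (by decide)
    · rw [h7.1] at h5
      exact absurd h5 (by decide)
    · rcases h4 with h4 | h4
      · exact h7.2.2.2 ((hM.1 _ h4.1).trans (hM.1 _ h4.2).symm)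
      · exact h7.2.2.2 ((hM.2 _ h4.1).trans (hM.2 _ h4.2).symm)
  | cf =>
    intro P N hM hc
    simp only [chkT, cf_false hM] at hc
    exact absurd hc (by decide)
  | bt b t u iht ihu =>
    intro P N hM hc
    simp only [chkT, Bool.and_eq_true] at hc
    rcases hb : F b with _ | _
    · have := hM.or (Mt.nil hb)
      rw [Nat.or_zero] at this
      exact iht _ _ this hc.1
    · have := hM.or (Mt.one hb)
      rw [Nat.or_zero] at this
      exact ihu _ _ this hc.2
  | cn i j t u iht ihu =>
    intro P N hM hc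
    simp only [chkT, Bool.and_eq_true] at hc
    obtain ⟨⟨h1, h2⟩, h3⟩ := hc
    obtain ⟨h4, h5⟩ := hy.cn i j h1
    rcases hb : F (16 * i + j) with _ | _
    · rw [hb] at h4 h5
      have := hM.or (((Mt.nil hb).or (Mt.nil h4.symm)).or (Mt.nil h5))
      simp only [Nat.or_zero] at this
      exact iht _ _ this h2
    · rw [hb] at h4 h5
      have := hM.or (((Mt.one hb).or (Mt.one h4.symm)).or (Mt.one h5))
      simp only [Nat.or_zero] at this
      exact ihu _ _ this h3
  | st i j t u w iht ihu ihw =>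
    intro P N hM hc
    simp only [chkT, Bool.and_eq_true] at hc
    obtain ⟨⟨⟨h1, h2⟩, h3⟩, h4⟩ := hc
    rcases hy.st i j h1 with h5 | h5 | h5
    · have := (hM.or (Mt.one h5.1)).or (Mt.nil h5.2)
      simp only [Nat.or_zero] at this
      exact iht _ _ this h2
    · have := (hM.or (Mt.one h5.2)).or (Mt.nil h5.1)
      simp only [Nat.or_zero] at this
      exact ihu _ _ this h3
    · have := (hM.or ((Mt.one h5.1).or (Mt.one h5.2.1))).or (Mt.nil h5.2.2.1)
      simp only [Nat.or_zero] at this
      exact ihw _ _ this h4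

end Pool.Agent.MPd439b2.FT
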